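import Pool.Agent.Lib.MP_25e40f_pr.Fin.Top
import Pool.Agent.Lib.MP_25e40f_pr.Fin.Sanity

/-!
# MP_25e40f_pr: in high dimensions the invasion percolation cluster seen from a far away invaded vertex is the incipient infinite cluster

Full answer to Q1: there is `d₀` such that for every `d ≥ d₀` the limit which defines the incipient infinite cluster exists, and the
invasion percolation cluster, translated by `x` and conditioned on `x` being invaded, has the same local limit as `|x| → ∞`.
The definitions are in `Pool/Agent/Lib/MP_25e40f_pr/Stmt.lean`. A cylinder event depends only on the intersection of the vertex set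
with a finite set `K`, so it is given by `K` and a family `𝓕` of subsets of `K`. All the events below are measurable, and almost surely
there is exactly one invaded set `V_t` for every `t` (ties have probability zero): `Fin/Sanity.lean`.
-/

set_option autoImplicit false

open Filter InvPerc
open scoped Classical

/-- There is `d₀` such that for all `d ≥ d₀`: (1) `P_pc(0 ↔ x)` and `P(x ∈ IPC)` are positive for every vertex `x`; (2) for every finite set
`K` of vertices and every family `𝓕` of finite sets there is a number `l` such that, as `|x| → ∞`,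
`P_pc(C(0) ∩ K ∈ 𝓕 | 0 ↔ x) → l` and `P((IPC - x) ∩ K ∈ 𝓕 | x ∈ IPC) → l`. -/
theorem Pool.Agent.Results.MP_25e40f_pr.InvasionIIC.result :
    ∃ d₀ : ℕ, ∀ d : ℕ, d₀ ≤ d → (∀ x : Fin d → ℤ,
      0 < (weights d).real {U | x ∈ cluster (pc d) U 0} ∧ 0 < (weights d).real {U | x ∈ ipc U}) ∧
    ∀ (K : Finset (Fin d → ℤ)) (𝓕 : Set (Finset (Fin d → ℤ))), ∃ l : ℝ,
      Tendsto (fun x => (weights d).real {U | x ∈ cluster (pc d) U 0 ∧
          (K.filter fun z => z ∈ cluster (pc d) U 0) ∈ 𝓕} /
        (weights d).real {U | x ∈ cluster (pc d) U 0}) cofinite (nhds l) ∧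
      Tendsto (fun x => (weights d).real {U | x ∈ ipc U ∧ (K.filter fun z => x + z ∈ ipc U) ∈ 𝓕} /
        (weights d).real {U | x ∈ ipc U}) cofinite (nhds l) :=
  IPC.final_all
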